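import Pool.Agent.H422Z.Urn.Main
import Pool.Agent.H422Z.Urn.Exist

set_option autoImplicit false

open MeasureTheory Filter Topology

namespace Pool.Agent.Results.MP_cd93fa_pr.ABoundaryLimit

open Pool.Agent.H422Z.UrnModel

universe u

/-- For every finite connected graph on at least two vertices there is `α₀` such that for every
`α > α₀` and every initial configuration with at least one ball per vertex, the urn process exists,
and for every realisation of it the vector of proportions converges almost surely to a point of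
the simplex with a zero coordinate. -/
theorem result (m : ℕ) (hm : 2 ≤ m) (G : SimpleGraph (Fin m)) [DecidableRel G.Adj]
    (hG : G.Connected) :
    ∃ α₀ : ℝ, 0 < α₀ ∧ ∀ α > α₀, ∀ B₀ : Fin m → ℕ, (∀ i, 1 ≤ B₀ i) →
      (∃ (Ω : Type) (_ : MeasurableSpace Ω) (P : Measure Ω) (_ : IsProbabilityMeasure P)
        (C : ℕ → Ω → Choice G), IsUrn G α B₀ P C) ∧
      ∀ (Ω : Type u) [MeasurableSpace Ω] (P : Measure Ω) [IsProbabilityMeasure P]
        (C : ℕ → Ω → Choice G), IsUrn G α B₀ P C →
        ∀ᵐ ω ∂P, ∃ v : Fin m → ℝ,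
          Tendsto (fun n => prop G B₀ (fun k => C k ω) n) atTop (𝓝 v) ∧
          (∀ i, 0 ≤ v i) ∧ ∑ i, v i = 1 ∧ ∃ i, v i = 0 := by
  obtain ⟨α₀, h0, h⟩ := Pool.Agent.H422Z.Urn.main.{u} hm hG
  exact ⟨α₀, h0, fun α hα B₀ hB => ⟨Pool.Agent.H422Z.Urn.exists_urn G α hB,
    fun Ω _ P _ C H => h α hα B₀ hB P C H⟩⟩

end Pool.Agent.Results.MP_cd93fa_pr.ABoundaryLimit
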